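import Pool.Agent.Run7.h414.DP.Alm
import Pool.Agent.H491R4.AF7

/-!
# The product of Birch and Swinnerton-Dyer for random curves `y² = x³ + a x + n` with determinantal digits

Here `a` is a fixed integer and `n = c + κ v` with a random integer `v`.
The digits of the random integer `v` are given by a determinantal random set `S` of positions (a determinantal point process
with an arbitrary Hermitian kernel): the digit number `i` is `y i` if `i ∈ S` and `x i ≠ y i` otherwise. Examples (their
existence is not used and not formalised): the edges of a uniform spanning tree of a graph with `k` edges; stationary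
determinantal processes with any symbol which is not almost everywhere `0` or almost everywhere `1` (for example the discrete
sine process with any density); independent digits; and all the events for such processes whose probability is at least
`1 / k ^ t`, for example a prescribed number of elements of `S`.

Definitions used (in `Pool.Agent.Run7.h414.DP.Law`, `Pool.Agent.Run7.h414.DP.Fam` and `Pool.Agent.Run7.h414.DP.Alm`):
`DetLaw`, `GoodPos`, `DetDigits`, `AlmostD`.

Method: the characteristic function is `det (1 + D A)`; the inequality `|det N|² ≤ exp (tr N* N - k)` for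
`N = 1 + B D B*`, `A = B* B`, bounds it by `exp (- E)` with an energy `E` which is at least a constant times the number of
the places where the frequency is far from the rational numbers with small denominators. The passage to the second moments and to sums over primes is from the starting files (`Pool.Agent.R459.Bsd`,
`Pool.Agent.H491R4.AF`), and in `Pool.Agent.W263.BSD`: `pointCount a n p` is the number of the solutions of
`y² = x³ + a x + n` modulo `p`, `GoodPrime a n p`: `p` is a prime which does not divide `2 (4 a³ + 27 n²)`.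

For all `x` up to a fixed power of `b ^ k` the product `P(x)` of `(N_p + 1) / p` over the primes of good
reduction up to `x` is of size `(log x) ^ (1 / 2 + o(1))` for almost all these curves: its logarithm has the normal order
`(log log x) / 2`, with fluctuations of order at most `(log log x) ^ (1 / 2)`. So for almost all curves the asymptotic
`C (log x) ^ r` of Q1 (with an integer `r`) is not visible for these `x`. And for almost all of these curves the bound
`x ^ (1 + δ)` for the sum of `a_p log p` over the good primes `p ≤ x`, which the Riemann hypothesis gives for large `x`, holds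
for all `x` up to a power of `b ^ k`.
-/

set_option autoImplicit false

namespace Pool.Agent.Results.MP_ad1693_nt.DeterminantalFamilies

open Finset Filter Pool.Agent.R459.Eq Pool.Agent.H491R4.AF
open Pool.Agent.W263.BSD (GoodPrime pointCount)
open Pool.Agent.R459.Bsd (GG TT)
open Pool.Agent.N794.CG (Mostly)
open Pool.Agent.Run7.h414.DP (DetDigits AlmostD almostD_of det_dom)

open Classical in
/-- The product of `(N_p + 1) / p` over the primes `p ≤ x` of good reduction of `y² = x³ + a x + n`; `N_p + 1` is the number of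
the points over `F_p`, including the point at infinity. -/
noncomputable def product (a n : ℤ) (x : ℕ) : ℝ :=
  ∏ p ∈ (range (x + 1)).filter (fun p => GoodPrime a n p), ((pointCount a n p : ℝ) + 1) / p

open Classical in
/-- The sum of `a_p log p`, `a_p = p - N_p`, over the primes `p ≤ x` of good reduction of `y² = x³ + a x + n`. -/
noncomputable def traceSum (a n : ℤ) (x : ℕ) : ℝ :=
  ∑ p ∈ (range (x + 1)).filter (fun p => GoodPrime a n p), ((p : ℝ) - pointCount a n p) * Real.log p

lemma product_eq (a n : ℤ) (x : ℕ) : Real.log (product a n x) = ∑ p ∈ pri x, GG a p n := by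
  classical
  unfold product
  rw [Real.log_prod]
  · have e : ∑ p ∈ pri x, GG a p n = ∑ p ∈ (range (x + 1)).filter (fun p => GoodPrime a n p), GG a p n := by
      symm
      apply sum_subset
      · intro p hp
        rw [mem_filter, mem_range] at hp
        rw [mem_pri]
        exact ⟨by omega, hp.2.1⟩
      · intro p hp hnp
        rw [mem_pri] at hp
        unfold GG
        rw [if_neg]
        intro hg
        apply hnp
        rw [mem_filter, mem_range]
        exact ⟨by omega, hg⟩
    rw [e]
    apply sum_congr rfl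
    intro p hp
    unfold GG
    rw [if_pos (mem_filter.1 hp).2]
  · intro p hp
    rw [mem_filter] at hp
    have : (0 : ℝ) < p := by exact_mod_cast hp.2.1.pos
    positivity

lemma traceSum_eq (a n : ℤ) (x : ℕ) : traceSum a n x = ∑ p ∈ pri x, TT a p n * Real.log p := by
  classical
  unfold traceSum
  have e : ∑ p ∈ pri x, TT a p n * Real.log p = ∑ p ∈ (range (x + 1)).filter (fun p => GoodPrime a n p), TT a p n * Real.log p := by
    symm
    apply sum_subset
    · intro p hp
      rw [mem_filter, mem_range] at hp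
      rw [mem_pri]
      exact ⟨by omega, hp.2.1⟩
    · intro p hp hnp
      rw [mem_pri] at hp
      unfold TT
      rw [if_neg, zero_mul]
      intro hg
      apply hnp
      rw [mem_filter, mem_range]
      exact ⟨by omega, hg⟩
  rw [e]
  apply sum_congr rfl
  intro p hp
  unfold TT
  rw [if_pos (mem_filter.1 hp).2]

/-- **The product of Birch and Swinnerton-Dyer for random curves `y² = x³ + a x + n` with determinantal digits.** Let `b ≥ 2`,
`L` and `η > 0` be fixed. There is `W` such that for all `κ ≠ 0` the following holds. Let `p` be dominated, up to the factor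
`k ^ t`, by the distribution of an integer with `k` determinantal digits (`DetDigits b L η t k p`).

(1) For every `a ≠ 0` there is `C` such that for all `t`, `k`, `p`, `c`, all `x ≥ 16 + b` with `x ^ W ≤ b ^ k` and
all `l > 0`: up to a `p`-weight of at most `C k ^ t / l²` the `n = c + κ v` satisfy
`|log P(x) - (log log x) / 2| ≤ l (log log x) ^ (1 / 2)`.

(2) Let `0 < δ ≤ 1 / 2`. For all sufficiently large `X`, all `t`, `k`, `p`, `c` and ALL integers `a`: up to a `p`-weight of at
most `k ^ t X ^ (- δ)` the `n = c + κ v` have the property that the sum of `a_p log p`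
over the primes `p ≤ x` of good reduction is at most `x ^ (1 + δ)` in absolute value for ALL `x ≥ X` with `x ^ W ≤ b ^ k`. -/
theorem result (b L : ℕ) (hb : 2 ≤ b) (η : ℝ) (hη : 0 < η) : ∃ W : ℕ, 1 ≤ W ∧ ∀ κ : ℤ, κ ≠ 0 →
    (∀ a : ℤ, a ≠ 0 → ∃ C : ℝ, 0 < C ∧ ∀ (t k : ℕ) (p : ℕ → ℝ), DetDigits b L η t k p → ∀ c : ℤ, ∀ x : ℕ, 16 + b ≤ x →
      x ^ W ≤ b ^ k → ∀ l : ℝ, 0 < l → AlmostD b k p κ c ((k : ℝ) ^ t * (C / l ^ 2)) (fun n =>
        |Real.log (product a n x) - Real.log (Real.log x) / 2| ≤ l * √(Real.log (Real.log x)))) ∧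
    (∀ δ : ℝ, 0 < δ → δ ≤ 1 / 2 → ∃ X₀ : ℕ, ∀ X : ℕ, X₀ ≤ X → ∀ (t k : ℕ) (p : ℕ → ℝ), DetDigits b L η t k p → ∀ c a : ℤ,
      AlmostD b k p κ c ((k : ℝ) ^ t * (X : ℝ) ^ (-δ)) (fun n => ∀ x : ℕ, X ≤ x → x ^ W ≤ b ^ k →
        |traceSum a n x| ≤ (x : ℝ) ^ (1 + δ))) := by
  classical
  obtain ⟨γ, hγ0, hγ1, hdom⟩ := det_dom b L hb η hη
  obtain ⟨W₁, hW₁, K₁⟩ := log_ms_from b hb L γ hγ0 hγ1
  obtain ⟨W₂, hW₂, K₂⟩ := Pool.Agent.R459.Bsd.tr_all b hb L γ hγ0 hγ1
  refine ⟨W₁ + W₂, by omega, fun κ hκ => ⟨fun a ha => ?_, fun δ hδ hδ1 => ?_⟩⟩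
  · obtain ⟨C, hC, J⟩ := K₁ ((b ^ (L + 1)).factorial) κ (Nat.factorial_pos _) hκ a ha
    refine ⟨C, hC, fun t k p hp c x hx hxW l hl => ?_⟩
    have hxr : (16 : ℝ) ≤ x := by exact_mod_cast (by omega : 16 ≤ x)
    obtain ⟨ℓ, hℓ⟩ : ∃ ℓ, ℓ = Real.log (Real.log x) := ⟨_, rfl⟩
    have hℓ0 : 0 < ℓ := by
      rw [hℓ]
      apply Real.log_pos
      rw [Real.lt_log_iff_exp_lt (by linarith)]
      have h5 := Real.exp_one_lt_d9
      linarith
    refine almostD_of (hdom t k p hp κ c (fun n => |∑ q ∈ pri x, GG a q n - ℓ / 2| ≤ l * √ℓ) (C / l ^ 2) (by positivity)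
      fun ι Ω w v hdec E hE hbad => ?_) ?_
    · have hms := J k x 0 (by omega) (by omega) ((Nat.pow_le_pow_right (by omega) (by omega)).trans hxW)
        (by rw [pow_zero]; omega) ι Ω w v ⟨hdec.nonneg, hdec.sum, fun θ N _ h1 h2 => hdec.char θ N h1 h2⟩
      rw [← hℓ] at hms
      have h5 : ∀ i ∈ E, l ^ 2 * ℓ ≤ (∑ q ∈ pri x, GG a q (v i) - ℓ / 2) ^ 2 := by
        intro i hi
        have h6 := hbad i hi
        push Not at h6
        have h7 : (l * √ℓ) ^ 2 ≤ |∑ q ∈ pri x, GG a q (v i) - ℓ / 2| ^ 2 := pow_le_pow_left₀ (by positivity) h6.le 2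
        rw [mul_pow, Real.sq_sqrt hℓ0.le, sq_abs] at h7
        exact h7
      have h6 : (∑ i ∈ E, w i) * (l ^ 2 * ℓ) ≤ C * ℓ := by
        rw [sum_mul]
        calc ∑ i ∈ E, w i * (l ^ 2 * ℓ) ≤ ∑ i ∈ E, w i * (∑ q ∈ pri x, GG a q (v i) - ℓ / 2) ^ 2 :=
              sum_le_sum fun i hi => mul_le_mul_of_nonneg_left (h5 i hi) (hdec.nonneg i (hE hi))
          _ ≤ ∑ i ∈ Ω, w i * (∑ q ∈ pri x, GG a q (v i) - ℓ / 2) ^ 2 :=
              sum_le_sum_of_subset_of_nonneg hE fun i hi _ => mul_nonneg (hdec.nonneg i hi) (sq_nonneg _)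
          _ ≤ C * ℓ := hms
      rw [le_div_iff₀ (by positivity)]
      rw [← mul_assoc] at h6
      exact le_of_mul_le_mul_right h6 hℓ0
    · intro n hn
      rw [product_eq, ← hℓ]
      exact hn
  · obtain ⟨X₀, J⟩ := K₂ ((b ^ (L + 1)).factorial) κ (Nat.factorial_pos _) hκ δ hδ hδ1
    refine ⟨X₀ + 1, fun X hX t k p hp c a => ?_⟩
    refine almostD_of (hdom t k p hp κ c (fun n => ∀ x : ℕ, X ≤ x → x ^ W₂ ≤ b ^ k →
      |∑ q ∈ pri x, TT a q n * Real.log q| ≤ (x : ℝ) ^ (1 + δ)) _ (by positivity) fun ι Ω w v hdec E hE hbad => ?_) ?_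
    · refine J X (by omega) _ ι Ω w v hdec a E hE fun i hi => ?_
      have h1 := hbad i hi
      push Not at h1
      exact h1
    · intro n hn x hXx hxW
      rw [traceSum_eq]
      exact hn x hXx ((Nat.pow_le_pow_right (by omega) (by omega)).trans hxW)

end Pool.Agent.Results.MP_ad1693_nt.DeterminantalFamilies
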