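import Pool.Agent.Run7.h582.FM.Es2
import Pool.Agent.R459.Bsd4

/-!
# The sums of `a_p log p` for ALL the curves `y² = x³ + a x + q`, `q` near `lam n * x + c n`, for almost every `x` with respect
to every measure with polynomial Fourier decay

Let `N n ≥ exp (n ^ η)` and let `lam n`, `c n` be real numbers with `N n / log ^ T (N n) ≤ lam n ≤ B N n` and
`|c n| ≤ B N n`. The theorem is about ALL the integers `q` at a distance of at most `log ^ V (N n)` from `lam n * x + c n`, for
all large `n`, for almost every `x` with respect to EVERY finite Borel measure `μ` with bounded support whose Fourier transform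
is `O (|ξ| ^ (-δ))` for some `δ > 0` (such measures can live on sets of an arbitrarily small positive Hausdorff dimension).

Method: a measure with polynomial Fourier decay is replaced by finite families of real numbers with the same exponential
sums (`Pool.Agent.Run7.h582.FM`); the characteristic functions of the integer parts of the members decay at all frequencies
with many binary digits far from those of an integer (with the theorem on integer parts of helper193, `Pool.Agent.N193.PS`);
from there the passage to sums over primes of functions of residues is from the starting files (`Pool.Agent.R459.Eq`, and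
helper794's form of it, `Pool.Agent.N794.CG`), and then the lemma of Borel and Cantelli is used.
The second moments of the traces are treated in the starting files (`Pool.Agent.R459.Bsd`).
-/

set_option autoImplicit false
set_option maxHeartbeats 4000000

namespace Pool.Agent.Results.MP_ad1693_nt.FourierDecayCurves

open Finset Filter MeasureTheory
open Pool.Agent.W263.BSD (GoodPrime pointCount)
open Pool.Agent.R459.Eq (pri mem_pri)
open Pool.Agent.R459.Bsd (TT)

/-- `N n ≥ exp (n ^ η)`, `|c n| ≤ B N n` and `N n / log ^ T (N n) ≤ lam n ≤ B N n` for large `n`. -/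
def Scales (η : ℝ) (B T : ℕ) (N : ℕ → ℕ) (lam c : ℕ → ℝ) : Prop :=
  ∀ᶠ n : ℕ in atTop, Real.exp ((n : ℝ) ^ η) ≤ N n ∧ |c n| ≤ B * N n ∧ lam n ≤ B * N n ∧
    (N n : ℝ) ≤ lam n * Real.log (N n) ^ T

/-- `μ` is a finite Borel measure with bounded support and its Fourier transform `ξ ↦ ∫ exp (i ξ t) dμ (t)` is
`O (|ξ| ^ (-δ))` for some `δ > 0`. -/
def FourierDecay (μ : Measure ℝ) : Prop :=
  IsFiniteMeasure μ ∧ (∃ R : ℝ, μ (Set.Icc (-R) R)ᶜ = 0) ∧ ∃ C δ : ℝ, 0 < δ ∧ ∀ ξ : ℝ, ξ ≠ 0 →
    ‖∫ t : ℝ, Complex.exp (((ξ * t : ℝ) : ℂ) * Complex.I) ∂μ‖ ≤ C * |ξ| ^ (-δ)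

/-- The distance of the integer `q` from the real number `y` is at most `log ^ V N`. -/
def Near (V N : ℕ) (y : ℝ) (q : ℤ) : Prop := |(q : ℝ) - y| ≤ Real.log N ^ V

/-- The range of the bounds for the primes: `log ^ L N ≤ X ≤ N ^ (1 / W)`. -/
def InRange (L W N X : ℕ) : Prop := Real.log N ^ L ≤ X ∧ (X : ℝ) ^ W ≤ N

open Classical in
/-- The sum of `a_p log p`, `a_p = p - N_p`, over the primes `p ≤ x` of good reduction of `y² = x³ + a x + n`; `N_p + 1` is the
number of the points over `F_p`, including the point at infinity. -/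
noncomputable def traceSum (a n : ℤ) (x : ℕ) : ℝ :=
  ∑ p ∈ (range (x + 1)).filter (fun p => GoodPrime a n p), ((p : ℝ) - pointCount a n p) * Real.log p

lemma traceSum_eq (a n : ℤ) (x : ℕ) : traceSum a n x = ∑ p ∈ pri x, TT a p n * Real.log p := by
  classical
  unfold traceSum
  have e : ∑ p ∈ pri x, TT a p n * Real.log p = ∑ p ∈ (range (x + 1)).filter (fun p => GoodPrime a n p), TT a p n * Real.log p := by
    symm
    apply sum_subset
    · intro p hp
      rw [mem_filter, mem_range] at hp
      rw [mem_pri]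
      exact ⟨by omega, hp.2.1⟩
    · intro p hp hnp
      rw [mem_pri] at hp
      unfold TT
      rw [if_neg, zero_mul]
      intro hg
      apply hnp
      rw [mem_filter, mem_range]
      exact ⟨by omega, hg⟩
  rw [e]
  apply sum_congr rfl
  intro p hp
  unfold TT
  rw [if_pos (mem_filter.1 hp).2]

/-- Let `μ` be a measure with `FourierDecay`. There is `W` such that for all `η > 0`, `V` and `0 < δ ≤ 1 / 2` there is `L` such that
for all sequences with `Scales η B T N lam c` and `μ`-almost every `x`, for all large `n`: for ALL the integers `q` at a distance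
of at most `log ^ V (N n)` from `lam n * x + c n`, ALL the integers `a` with `|a| ≤ log ^ V (N n)` and EVERY `X` with
`log ^ L (N n) ≤ X`, `X ^ W ≤ N n`, the sum of `a_p log p` over the primes `p ≤ X` of good reduction of `y² = x³ + a x + q` is at
most `X ^ (1 + δ)` in absolute value. (For a fixed curve and all large `X` this is equivalent to the Riemann hypothesis for its
`L`-function, which is necessary for Q1.) -/
theorem result (μ : Measure ℝ) (hμ : FourierDecay μ) :
    ∃ W : ℕ, 1 ≤ W ∧ ∀ η : ℝ, 0 < η → ∀ (V : ℕ) (δ : ℝ), 0 < δ → δ ≤ 1 / 2 → ∃ L : ℕ,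
      ∀ (B T : ℕ) (N : ℕ → ℕ) (lam c : ℕ → ℝ), Scales η B T N lam c →
      ∀ᵐ x ∂μ, ∀ᶠ n : ℕ in atTop, ∀ q : ℤ, Near V (N n) (lam n * x + c n) q →
        ∀ a : ℤ, |(a : ℝ)| ≤ Real.log (N n) ^ V → ∀ X : ℕ, InRange L W (N n) X →
          |traceSum a q X| ≤ (X : ℝ) ^ (1 + δ) := by
  classical
  obtain ⟨A, _, H⟩ := Pool.Agent.Run7.h582.FM.ae_scale_int Pool.Agent.Run7.h582.FM.CD Pool.Agent.Run7.h582.FM.hasCls_cd μ hμ
  obtain ⟨W, hW, K⟩ := Pool.Agent.R459.Bsd.tr_all 2 le_rfl A (1 / 2) (by norm_num) (by norm_num)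
  refine ⟨2 * W, by omega, fun η hη V δ hδ hδ1 => ?_⟩
  obtain ⟨U, hU⟩ := H η hη V
  obtain ⟨X₀, J⟩ := K 1 1 le_rfl one_ne_zero δ hδ hδ1
  obtain ⟨L, hL⟩ := Pool.Agent.Run7.h582.FM.cd_range2 A W δ hδ X₀ U
  refine ⟨L, fun B T N lam c hS => ?_⟩
  have hNr : Tendsto (fun n : ℕ => (N n : ℝ)) atTop atTop := by
    have h1 : Tendsto (fun n : ℕ => Real.exp ((n : ℝ) ^ η)) atTop atTop :=
      Real.tendsto_exp_atTop.comp ((tendsto_rpow_atTop hη).comp tendsto_natCast_atTop_atTop)
    exact tendsto_atTop_mono' _ (hS.mono fun n hn => hn.1) h1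
  have key := hU B T N lam c hS (fun n a q => ∀ X : ℕ, Real.log (N n) ^ L ≤ X → (X : ℝ) ^ (2 * W) ≤ N n →
      |∑ p ∈ pri X, TT a p q * Real.log p| ≤ (X : ℝ) ^ (1 + δ)) (by
    filter_upwards [hNr.eventually (hL T)] with n hn k hk1 _ a τ S w _ hS0 hcd
    have h1 := hn (fun X q => |∑ p ∈ pri X, TT a p q * Real.log p| ≤ (X : ℝ) ^ (1 + δ))
      (fun k X hX ι Ω w v hdec E hE hbad => J X hX k ι Ω w v hdec a E hE fun i hi => by
        obtain ⟨x, h1, h2, h3⟩ := hbad i hi
        exact ⟨x, h1, h2, not_le.1 h3⟩) k hk1 τ S w hS0 hcd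
    refine le_trans (le_of_eq ?_) h1
    rw [← Set.ncard_coe_finset]
    congr 2
    ext i
    simp)
  filter_upwards [key] with x hx
  filter_upwards [hx] with n hn q hq a ha X hX
  rw [traceSum_eq]
  exact hn q hq a ha X hX.1 hX.2

end Pool.Agent.Results.MP_ad1693_nt.FourierDecayCurves
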