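import Pool.Agent.Run7.h710.TR.E
import Pool.Agent.H491R4.TW3

/-!
# The sums of `a_p log p` for almost all quadratic twists of any curve by the integers written by a transducer

The integers `v < a ^ k` are arbitrary, up to few exceptions; the transducer `T` reads the digits of `v` in base `a` and
writes the digits of `T(v)` in base `b` (definitions in `Pool.Agent.Run7.h710.TR.Defs`).

By Kuo-Murty and Conrad (see the problem file) the asymptotic formula of Q1 holds for an elliptic curve if and only if the sum
of `(α_p ^ k + β_p ^ k) log p` over the `p ^ k ≤ x` is `o(x log x)`; the terms with `k ≥ 2` contribute `O(x)`, so this is a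
condition on the sum of `a_p log p` over the primes `p ≤ x`. The quadratic twist `E_D` of the curve `y² = x³ + A x + A'` by `D`
is `y² = x³ + A D² x + A' D³`.

Method: if two words of `L` digits lead from the same state to the same state and different words are written, then the two
parts of the exponential sum over the integers `T(v)` which belong to these words cancel in part at the places where the
frequency has a digit which is not extremal. From the starting files: the mean square of these sums for families with small
characteristic functions (`Pool.Agent.H491R4.TW`).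

Definitions used: in `Pool.Agent.W263.BSD` (file `Pool/Agent/W263/BSD/Defs.lean`): `pointCount a n p` is the number of the
solutions of `y² = x³ + a x + n` modulo `p`, `GoodPrime a n p`: `p` is a prime which does not divide `2 (4 a³ + 27 n²)`.

Examples: the bitwise conjunction or disjunction of `v` and `m v` (the carries are the states); the integer whose digit `i`
is `f(x_i, x_{i+1}, …, x_{i+r})`, where `x_i` are the digits of `v` and `f` is not constant (one-sided cellular automata).
-/

set_option autoImplicit false

namespace Pool.Agent.Results.MP_ad1693_nt.TransducerTwistSums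

open Finset Filter Pool.Agent.Run7.h710.TR
open Pool.Agent.R459.Eq (pri mem_pri)
open Pool.Agent.W263.BSD (GoodPrime pointCount)
open Pool.Agent.R459.Bsd (TT)
open Pool.Agent.H491R4.TW (HT)

open Classical in
/-- The sum of `g(p) a_p log p`, `a_p = p - N_p`, over the primes `p ≤ x` of good reduction of `y² = x³ + a x + b`. -/
noncomputable def traceSum (g : ℕ → ℝ) (a b : ℤ) (x : ℕ) : ℝ :=
  ∑ p ∈ (range (x + 1)).filter (fun p => GoodPrime a b p), g p * ((p : ℝ) - pointCount a b p) * Real.log p

lemma traceSum_eq (g : ℕ → ℝ) (a b D : ℤ) (x : ℕ) :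
    traceSum g (a * D ^ 2) (b * D ^ 3) x = ∑ p ∈ pri x, g p * HT a b p D * Real.log p := by
  classical
  unfold traceSum
  have e : ∑ p ∈ pri x, g p * HT a b p D * Real.log p =
      ∑ p ∈ (range (x + 1)).filter (fun p => GoodPrime (a * D ^ 2) (b * D ^ 3) p), g p * HT a b p D * Real.log p := by
    symm
    apply sum_subset
    · intro p hp
      rw [mem_filter, mem_range] at hp
      rw [mem_pri]
      exact ⟨by omega, hp.2.1⟩
    · intro p hp hnp
      rw [mem_pri] at hp
      unfold HT TT
      rw [if_neg, mul_zero, zero_mul]
      intro hg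
      apply hnp
      rw [mem_filter, mem_range]
      exact ⟨by omega, hg⟩
  rw [e]
  apply sum_congr rfl
  intro p hp
  unfold HT TT
  rw [if_pos (mem_filter.1 hp).2]

open Classical in
/-- Let `b ≥ 2` and `L ≥ 1`. There is `W` such that for `κ ≠ 0` there is `C > 0` with the following property for all `k`. Let an arbitrary transducer be given which reads digits `< a` and writes digits `< b` (with finitely or infinitely many
states) such that from every state two words of `L` digits lead to the same state, while different words are written; let it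
begin in an arbitrary state `s` and read from the left or from the right; `T(v)` is
the integer which is written when `v` is read. For ALL integers `A`, `A'`, `c`, ALL weights `g` with `|g(p)| ≤ 1`, all
`x ≥ 16` with `x ≥ b` and `x ^ W ≤ b ^ k` and all `l > 0`: all the `v < a ^ k`, with at most `(C / l²) a ^ k` exceptions, have
the property, with `D = c + κ T(v)`, that the sum of `g(p) a_p log p` over the primes `p ≤ x` of good reduction of the twist
`E_D : y² = x³ + A D² x + A' D³` is at most `l x (log x) ^ (1 / 2)` in absolute value. -/
theorem result (a b L : ℕ) (hb : 2 ≤ b) (hL : 1 ≤ L) : ∃ W : ℕ, 1 ≤ W ∧ ∀ κ : ℤ, κ ≠ 0 → ∃ C : ℝ, 0 < C ∧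
    ∀ (k : ℕ) (S : Type) (τ : S → ℕ → S) (o : S → ℕ → ℕ), Transducer a b L τ o →
    ∀ (left : Bool) (s : S) (c A A' : ℤ) (g : ℕ → ℝ),
    (∀ p, |g p| ≤ 1) → ∀ x : ℕ, 16 ≤ x → b ≤ x → x ^ W ≤ b ^ k → ∀ l : ℝ, 0 < l →
      (((range (a ^ k)).filter fun v => ¬ |traceSum g (A * (c + κ * (image a b τ o left k s v : ℕ)) ^ 2)
        (A' * (c + κ * (image a b τ o left k s v : ℕ)) ^ 3) x| ≤ l * (x * √(Real.log x))).card : ℝ) ≤
        C / l ^ 2 * (a : ℝ) ^ k := by
  obtain ⟨γ, hγ0, hγ1, hdec⟩ := tr_decays a b L hb hL
  obtain ⟨W, hW, H⟩ := Pool.Agent.H491R4.TW.tws_ms_from b hb (L + 1) γ hγ0 hγ1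
  refine ⟨W, hW, fun κ hκ => ?_⟩
  obtain ⟨C, hC, J⟩ := H (b.factorial * (b ^ L).factorial) κ (Nat.mul_pos (Nat.factorial_pos _) (Nat.factorial_pos _)) hκ
  refine ⟨C, hC, fun k S τ o hTr left s c A A' g hg x hx16 hbx hxW l hl => ?_⟩
  have ha : 0 < a := by
    have := two_le hTr s
    omega
  have hd := hdec S τ o hTr left s k κ c
  have h1 := J A A' g hg k x 0 hx16 hbx hxW (by rw [pow_zero]; omega) ℕ (range (a ^ k)) (wt a k) (val a b τ o left k s c κ)
    ⟨hd.nonneg, hd.sum, fun θ N _ h2 h3 => hd.char θ N h2 h3⟩
  have hxr : (16 : ℝ) ≤ x := by exact_mod_cast hx16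
  have hlx : 0 < Real.log x := Real.log_pos (by linarith)
  exact cheb ha (Y := x * √(Real.log x)) (by positivity) hl
    (f := fun v => traceSum g (A * (c + κ * (image a b τ o left k s v : ℕ)) ^ 2)
        (A' * (c + κ * (image a b τ o left k s v : ℕ)) ^ 3) x) (M := C) (k := k) (by
      rw [mul_pow, Real.sq_sqrt hlx.le]
      refine le_trans (le_of_eq ?_) h1
      apply sum_congr rfl
      intro v _
      rw [traceSum_eq]
      rfl)

end Pool.Agent.Results.MP_ad1693_nt.TransducerTwistSums
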