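import Pool.Agent.Run7.h844.RP.PwE3
import Pool.Agent.Run7.h844.RP.PwG

/-!
# The product of Birch and Swinnerton-Dyer for almost all curves `y² = x³ + a x + n` with `n` from the values of generalised
polynomials at primes

From `Pool.Agent.W263.BSD` (file `Pool/Agent/W263/BSD/Defs.lean`): `pointCount a b p` is the number of the solutions of
`y² = x³ + a x + b` modulo `p`, `GoodPrime a b p`: `p` is a prime which does not divide `2 (4 a³ + 27 b²)`.

Method: exponential sums over primes with the phase of a generalised polynomial: derivative bounds uniform in the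
coefficients, van der Corput differencing of all orders, bilinear sums, Vaughan's identity (after `Pool.Agent.H895R3.NK`,
`Pool.Agent.H373R2.T7`), with a power saving at all frequencies up to a power, and a discrete Fejér kernel for the passage to
the integer parts (library `Pool.Agent.Run7.h844.RP`). The passage from such exponential sums to sums over primes of
functions of residues, for almost all members, is from the starting files (`Pool.Agent.R459.Bsd`).
-/

set_option autoImplicit false

namespace Pool.Agent.Results.MP_ad1693_nt.ValuesAtPrimes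

open Finset Filter
open Pool.Agent.W263.BSD (GoodPrime pointCount)
open Pool.Agent.R459.Eq (pri mem_pri)
open Pool.Agent.R459.Bsd (GG TT)

/-- The generalised polynomial `∑ a x * t ^ x`, `x ∈ F`, with real exponents and coefficients. -/
noncomputable def genPoly (F : Finset ℝ) (a : ℝ → ℝ) (t : ℝ) : ℝ := ∑ x ∈ F, a x * t ^ x

/-- `c` is the largest exponent; it is positive and not an integer, and its coefficient is not zero. -/
def Leading (F : Finset ℝ) (a : ℝ → ℝ) (c : ℝ) : Prop :=
  c ∈ F ∧ (∀ x ∈ F, x ≤ c) ∧ 0 < c ∧ (∀ m : ℕ, c ≠ m) ∧ a c ≠ 0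

open Classical in
/-- Almost all the integers `n = c₀ + κ ⌊g(q) + z⌋`, where `N < q ≤ 2 N` is prime, up to a proportion of at most `τ` of these
primes `q`, have the property `P`. -/
def Almost (g : ℝ → ℝ) (N : ℕ) (z : ℝ) (κ c₀ : ℤ) (τ : ℝ) (P : ℤ → Prop) : Prop :=
  (((Ioc N (2 * N)).filter (fun q : ℕ => q.Prime ∧ ¬ P (c₀ + κ * ⌊g q + z⌋))).card : ℝ) ≤
    τ * ((Ioc N (2 * N)).filter Nat.Prime).card

lemma almost_of {F : Finset ℝ} {b : ℝ → ℝ} {N : ℕ} {z : ℝ} {κ c₀ : ℤ} {τ : ℝ} {P Q : ℤ → Prop}
    (h : Pool.Agent.Run7.h844.RP.AlmostI (Pool.Agent.Run7.h844.RP.PB N) (Pool.Agent.Run7.h844.RP.vz F b z) κ c₀ τ P)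
    (hPQ : ∀ n, P n → Q n) : Almost (genPoly F b) N z κ c₀ τ Q := by
  have h1 := Pool.Agent.Run7.h844.RP.AlmostI.mono h hPQ
  unfold Pool.Agent.Run7.h844.RP.AlmostI Pool.Agent.Run7.h844.RP.PB at h1
  rw [filter_filter] at h1
  unfold Almost
  convert h1
  rfl

open Classical in
/-- The product of `(N_p + 1) / p` over the primes `p ≤ x` of good reduction of `y² = x³ + a x + n`; `N_p + 1` is the number of
the points over `F_p`, including the point at infinity. -/
noncomputable def product (a n : ℤ) (x : ℕ) : ℝ :=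
  ∏ p ∈ (range (x + 1)).filter (fun p => GoodPrime a n p), ((pointCount a n p : ℝ) + 1) / p

lemma product_eq (a n : ℤ) (x : ℕ) : Real.log (product a n x) = ∑ p ∈ pri x, GG a p n := by
  classical
  unfold product
  rw [Real.log_prod]
  · have e : ∑ p ∈ pri x, GG a p n = ∑ p ∈ (range (x + 1)).filter (fun p => GoodPrime a n p), GG a p n := by
      symm
      apply sum_subset
      · intro p hp
        rw [mem_filter, mem_range] at hp
        rw [mem_pri]
        exact ⟨by omega, hp.2.1⟩
      · intro p hp hnp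
        rw [mem_pri] at hp
        unfold GG
        rw [if_neg]
        intro hg
        apply hnp
        rw [mem_filter, mem_range]
        exact ⟨by omega, hg⟩
    rw [e]
    apply sum_congr rfl
    intro p hp
    unfold GG
    rw [if_pos (mem_filter.1 hp).2]
  · intro p hp
    rw [mem_filter] at hp
    have : (0 : ℝ) < p := by exact_mod_cast hp.2.1.pos
    positivity

/-- Let `g(t) = ∑ b x t ^ x` be a generalised polynomial whose largest exponent `c` is positive and not an integer. There is
`θ > 0` such that for all `κ ≠ 0` and every `a ≠ 0` there are `C` and `X₀` such that for all `N ≥ X₀`, all real `z`, all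
integers `c₀`, all `x` with `X₀ ≤ x ≤ N ^ θ` and all `l > 0`: almost all the integers `n = c₀ + κ ⌊g(q) + z⌋`, where `q` runs over
the primes `N < q ≤ 2 N`, up to a proportion of at most `C / l²` of the `q`, satisfy
`|log P(x) - (log log x) / 2| ≤ l (log log x) ^ (1 / 2)`, where `P(x)` is the product of `(N_p + 1) / p` over the primes `p ≤ x`
of good reduction of `y² = x³ + a x + n`. So for almost all these curves `P(x)` is of size `(log x) ^ (1 / 2 + o(1))`. -/
theorem result (F : Finset ℝ) (b : ℝ → ℝ) (c : ℝ) (hF : Leading F b c) :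
    ∃ θ : ℝ, 0 < θ ∧ ∀ κ : ℤ, κ ≠ 0 → ∀ a : ℤ, a ≠ 0 → ∃ (C : ℝ) (X₀ : ℕ), 0 < C ∧
        ∀ N : ℕ, X₀ ≤ N → ∀ (z : ℝ) (c₀ : ℤ) (x : ℕ), X₀ ≤ x → (x : ℝ) ≤ (N : ℝ) ^ θ →
        ∀ l : ℝ, 0 < l → Almost (genPoly F b) N z κ c₀ (C / l ^ 2) (fun n =>
          |Real.log (product a n x) - Real.log (Real.log x) / 2| ≤ l * √(Real.log (Real.log x))) := by
  obtain ⟨β, hβ, _, N₀, hfam⟩ := Pool.Agent.Run7.h844.RP.primes_fam F c hF.1 hF.2.2.2.1 hF.2.2.1 hF.2.1 b hF.2.2.2.2
  obtain ⟨W, hW, K₁⟩ := Pool.Agent.Run7.h844.RP.ip_log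
  have hW0 : (0 : ℝ) < W := by exact_mod_cast hW
  refine ⟨β / W, by positivity, fun κ hκ a ha => ?_⟩
  obtain ⟨C, X₀, hC, J⟩ := K₁ κ hκ a ha
  refine ⟨C, X₀ + N₀ + 1, hC, fun N hN z c₀ x hx hxN l hl => ?_⟩
  refine almost_of (J ℕ _ _ _ (hfam N (by omega) z) c₀ x (by omega) (Pool.Agent.Run7.h844.RP.le_pow_of hW hxN) l hl) ?_
  intro n hn
  rw [product_eq]
  exact hn

end Pool.Agent.Results.MP_ad1693_nt.ValuesAtPrimes
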